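import Pool.Agent.helper52.T1.SpecS

/-!
# MP_07c750, PROJECT T1, row LTH: the leaf theorem
-/

set_option autoImplicit false

open scoped MatrixGroups ContDiff Topology UpperHalfPlane ComplexConjugate
open UpperHalfPlane MeasureTheory Filter Set

namespace Pool.Agent.T1

open Pool.Agent.RS Pool.Agent.MS Pool.Agent.HV
open Pool.Agent.EN (XG MG mkX mkM fl pr)

noncomputable section

theorem LTH_mono {W : Set SL(2, ℝ)} {N0 k : ℕ} {p q : ℕ → Bool} {Q Q' : ℝ} (h : PQ W N0 k p q Q) (hQ : Q ≤ Q') : PQ W N0 k p q Q' := fun h1 g a =>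
  (h h1 g a).trans (mul_le_mul_of_nonneg_right hQ (Finset.sum_nonneg fun _ _ => sq_nonneg _))

theorem LTH_uu (p q : ℕ → Bool) (s t : ℕ) : (UU p q s t : ℝ) = ∑ i ∈ Finset.Ico s t, (if p i = false ∧ q i = false then (1 : ℝ) else 0) := by
  unfold UU
  rw [Finset.card_filter]
  push_cast
  exact Finset.sum_congr rfl fun i _ => by split_ifs <;> rfl

theorem LTH_kk (p q : ℕ → Bool) (s t : ℕ) : (KK p q s t : ℝ) = ∑ i ∈ Finset.Ico s t, (if p i = true ∧ q i = true then (1 : ℝ) else 0) := by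
  unfold KK
  rw [Finset.card_filter]
  push_cast
  exact Finset.sum_congr rfl fun i _ => by split_ifs <;> rfl

theorem LTH_kc (p : ℕ → Bool) (s t : ℕ) : (Kc p s t : ℝ) = ∑ i ∈ Finset.Ico s t, (if p i = true then (1 : ℝ) else 0) := by
  unfold Kc
  rw [Finset.card_filter]
  push_cast
  exact Finset.sum_congr rfl fun i _ => by split_ifs <;> rfl

theorem LTH_uua (p q : ℕ → Bool) {s t u : ℕ} (h1 : s ≤ t) (h2 : t ≤ u) : (UU p q s u : ℝ) = UU p q s t + UU p q t u := by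
  rw [LTH_uu, LTH_uu, LTH_uu, Finset.sum_Ico_consecutive _ h1 h2]

theorem LTH_kka (p q : ℕ → Bool) {s t u : ℕ} (h1 : s ≤ t) (h2 : t ≤ u) : (KK p q s u : ℝ) = KK p q s t + KK p q t u := by
  rw [LTH_kk, LTH_kk, LTH_kk, Finset.sum_Ico_consecutive _ h1 h2]

theorem LTH_uus (p q : ℕ → Bool) (t m : ℕ) : (UU (sh t p) (sh t q) 0 m : ℝ) = UU p q t (t + m) := by
  rw [LTH_uu, LTH_uu]
  have h := Finset.sum_Ico_add (fun i => if p i = false ∧ q i = false then (1 : ℝ) else 0) 0 m t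
  rw [zero_add, add_comm m t] at h
  rw [← h]
  rfl

theorem LTH_kks (p q : ℕ → Bool) (t m : ℕ) : (KK (sh t p) (sh t q) 0 m : ℝ) = KK p q t (t + m) := by
  rw [LTH_kk, LTH_kk]
  have h := Finset.sum_Ico_add (fun i => if p i = true ∧ q i = true then (1 : ℝ) else 0) 0 m t
  rw [zero_add, add_comm m t] at h
  rw [← h]
  rfl

theorem LTH_kcs (p : ℕ → Bool) (t a b : ℕ) : Kc (sh t p) a b = Kc p (t + a) (t + b) := by
  have h1 : (Kc (sh t p) a b : ℝ) = Kc p (t + a) (t + b) := by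
    rw [LTH_kc, LTH_kc]
    have h := Finset.sum_Ico_add (fun i => if p i = true then (1 : ℝ) else 0) a b t
    rw [add_comm a t, add_comm b t] at h
    rw [← h]
    rfl
  exact_mod_cast h1

theorem LTH_id (p q : ℕ → Bool) (M : ℕ) : (UU p q 0 M : ℝ) - KK p q 0 M = M - Kc p 0 M - Kc q 0 M := by
  rw [LTH_uu, LTH_kk, LTH_kc, LTH_kc]
  have h : (M : ℝ) = ∑ i ∈ Finset.Ico 0 M, (1 : ℝ) := by simp
  rw [h, ← Finset.sum_sub_distrib, ← Finset.sum_sub_distrib, ← Finset.sum_sub_distrib]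
  apply Finset.sum_congr rfl
  intro i _
  cases hp : p i <;> cases hq : q i <;> simp

theorem LTH_win {p : ℕ → Bool} {t r : ℕ} (h : Win p t r) : Win (sh t p) 0 r := by
  refine ⟨h.r1, ?_, ?_, ?_⟩
  · rw [LTH_kcs, add_zero, zero_add]
    exact h.w1
  · rw [LTH_kcs, zero_add, zero_add]
    exact h.w2
  · rw [LTH_kcs, zero_add, zero_add]
    exact h.w3

theorem LTH_shsh (p : ℕ → Bool) {s t : ℕ} (h : s ≤ t) : sh (t - s) (sh s p) = sh t p := by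
  funext i
  unfold sh
  congr 1
  omega

/-- chains of one block bounds -/
theorem LTH_chain {W : Set SL(2, ℝ)} {N0 : ℕ} {C0 η η' : ℝ} (hN : 1 ≤ N0) (hLSP : ∀ (k1 k2 : ℕ) (p q : ℕ → Bool) (Q1 Q2 : ℝ), 0 ≤ Q1 → 0 ≤ Q2 → PQ W N0 k1 p q Q1 → PQ W N0 k2 (sh k1 p) (sh k1 q) Q2 → PQ W N0 (k1 + k2) p q (C0 * Q1 * Q2))
    (h0 : ∀ p q : ℕ → Bool, PQ W N0 0 p q 1) (hC0 : C0 * (N0 : ℝ) ^ η' ≤ (N0 : ℝ) ^ η)
    (h1 : ∀ p q : ℕ → Bool, PQ W N0 1 p q ((N0 : ℝ) ^ (-(KK p q 0 1 : ℝ) + η'))) (p q : ℕ → Bool) (k : ℕ) : PQ W N0 k p q ((N0 : ℝ) ^ (-(KK p q 0 k : ℝ) + η * k)) := by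
  have hN0 : (0 : ℝ) < N0 := by exact_mod_cast hN
  induction k with
  | zero =>
    have h2 : (KK p q 0 0 : ℝ) = 0 := by rw [LTH_kk]; simp
    rw [h2]
    simp only [Nat.cast_zero, mul_zero, neg_zero, add_zero, Real.rpow_zero]
    exact h0 p q
  | succ k ih =>
    have h2 := hLSP k 1 p q _ _ (Real.rpow_nonneg hN0.le _) (Real.rpow_nonneg hN0.le _) ih (h1 (sh k p) (sh k q))
    refine LTH_mono h2 ?_
    rw [LTH_kks, LTH_kka p q (Nat.zero_le k) (Nat.le_succ k)]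
    push_cast
    calc C0 * (N0 : ℝ) ^ (-(KK p q 0 k : ℝ) + η * k) * (N0 : ℝ) ^ (-(KK p q k (k + 1) : ℝ) + η')
        = (C0 * (N0 : ℝ) ^ η') * ((N0 : ℝ) ^ (-(KK p q 0 k : ℝ) + η * k) * (N0 : ℝ) ^ (-(KK p q k (k + 1) : ℝ))) := by
          rw [Real.rpow_add hN0 (-(KK p q k (k + 1) : ℝ)) η']
          ring
      _ ≤ (N0 : ℝ) ^ η * ((N0 : ℝ) ^ (-(KK p q 0 k : ℝ) + η * k) * (N0 : ℝ) ^ (-(KK p q k (k + 1) : ℝ))) := mul_le_mul_of_nonneg_right hC0 (by positivity)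
      _ = (N0 : ℝ) ^ (-((KK p q 0 k : ℝ) + KK p q k (k + 1)) + η * (k + 1)) := by
          rw [← Real.rpow_add hN0, ← Real.rpow_add hN0]
          congr 1
          ring

/-- the induction over the cut -/
theorem LTH_ind {W : Set SL(2, ℝ)} {N0 : ℕ} {C0 η η' θ : ℝ} (hN : 1 ≤ N0) (hLSP : ∀ (k1 k2 : ℕ) (p q : ℕ → Bool) (Q1 Q2 : ℝ), 0 ≤ Q1 → 0 ≤ Q2 → PQ W N0 k1 p q Q1 → PQ W N0 k2 (sh k1 p) (sh k1 q) Q2 → PQ W N0 (k1 + k2) p q (C0 * Q1 * Q2))
    (h0 : ∀ p q : ℕ → Bool, PQ W N0 0 p q 1) (hC0 : C0 * (N0 : ℝ) ^ η' ≤ (N0 : ℝ) ^ η) (hη' : 0 ≤ η') (hη0 : 0 ≤ η)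
    (h1 : ∀ p q : ℕ → Bool, PQ W N0 1 p q ((N0 : ℝ) ^ (-(KK p q 0 1 : ℝ) + η')))
    (hw : ∀ (p q : ℕ → Bool) (r : ℕ), Win p 0 r → PQ W N0 (202 * r) p q ((N0 : ℝ) ^ ((UU p q 0 (202 * r) : ℝ) - r / 2000 + θ * r)))
    {μ : ℝ} (hμ1 : η ≤ μ) (hμ2 : 101 * η + θ / 2 + η ≤ 202 * μ) {p : ℕ → Bool} (q : ℕ → Bool) {s t L : ℕ} (hc : Cut p s t L) :
    s ≤ t ∧ PQ W N0 (t - s) (sh s p) (sh s q) ((N0 : ℝ) ^ (((UU p q s t : ℝ) - KK p q s t) / 2 - L / 808000 + μ * ((t : ℝ) - s))) := by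
  have hN0 : (0 : ℝ) < N0 := by exact_mod_cast hN
  have hN1 : (1 : ℝ) ≤ N0 := by exact_mod_cast hN
  induction hc with
  | nil =>
    refine ⟨le_rfl, ?_⟩
    have h2 : (UU p q s s : ℝ) = 0 := by rw [LTH_uu]; simp
    have h3 : (KK p q s s : ℝ) = 0 := by rw [LTH_kk]; simp
    rw [h2, h3, Nat.sub_self]
    simp only [Nat.cast_zero, sub_self, zero_div, mul_zero, add_zero, Real.rpow_zero]
    exact h0 _ _
  | blk t L hc ih =>
    obtain ⟨hst, ih⟩ := ih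
    refine ⟨by omega, ?_⟩
    have h2 := hLSP (t - s) 1 (sh s p) (sh s q) _ _ (Real.rpow_nonneg hN0.le _) (Real.rpow_nonneg hN0.le _) ih (h1 _ _)
    rw [LTH_shsh p hst, LTH_shsh q hst, LTH_kks] at h2
    have h3 : t - s + 1 = t + 1 - s := by omega
    rw [h3] at h2
    refine LTH_mono h2 ?_
    rw [LTH_kka p q hst (Nat.le_succ t), LTH_uua p q hst (Nat.le_succ t)]
    have h4 : (0 : ℝ) ≤ UU p q t (t + 1) := Nat.cast_nonneg _
    have h5 : (0 : ℝ) ≤ KK p q t (t + 1) := Nat.cast_nonneg _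
    push_cast
    calc C0 * (N0 : ℝ) ^ (((UU p q s t : ℝ) - KK p q s t) / 2 - L / 808000 + μ * ((t : ℝ) - s)) * (N0 : ℝ) ^ (-(KK p q t (t + 1) : ℝ) + η')
        = (C0 * (N0 : ℝ) ^ η') * ((N0 : ℝ) ^ (((UU p q s t : ℝ) - KK p q s t) / 2 - L / 808000 + μ * ((t : ℝ) - s)) * (N0 : ℝ) ^ (-(KK p q t (t + 1) : ℝ))) := by
          rw [Real.rpow_add hN0 (-(KK p q t (t + 1) : ℝ)) η']
          ring
      _ ≤ (N0 : ℝ) ^ η * ((N0 : ℝ) ^ (((UU p q s t : ℝ) - KK p q s t) / 2 - L / 808000 + μ * ((t : ℝ) - s)) * (N0 : ℝ) ^ (-(KK p q t (t + 1) : ℝ))) := mul_le_mul_of_nonneg_right hC0 (by positivity)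
      _ = (N0 : ℝ) ^ (η + ((((UU p q s t : ℝ) - KK p q s t) / 2 - L / 808000 + μ * ((t : ℝ) - s)) + -(KK p q t (t + 1) : ℝ))) := by
          rw [← Real.rpow_add hN0, ← Real.rpow_add hN0]
      _ ≤ (N0 : ℝ) ^ (((UU p q s t : ℝ) + UU p q t (t + 1) - (KK p q s t + KK p q t (t + 1))) / 2 - L / 808000 + μ * ((t : ℝ) + 1 - s)) := by
          apply Real.rpow_le_rpow_of_exponent_le hN1
          linarith
  | win t L r hc hW ih =>
    obtain ⟨hst, ih⟩ := ih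
    refine ⟨by omega, ?_⟩
    have hr1 : (1 : ℝ) ≤ r := by exact_mod_cast hW.r1
    -- the window
    have ha := hw (sh t p) (sh t q) r (LTH_win hW)
    have hb := LTH_chain hN hLSP h0 hC0 h1 (sh t p) (sh t q) (202 * r)
    rw [LTH_uus] at ha
    rw [LTH_kks] at hb
    have hmean : PQ W N0 (202 * r) (sh t p) (sh t q) ((N0 : ℝ) ^ (((UU p q t (t + 202 * r) : ℝ) - KK p q t (t + 202 * r)) / 2 - r / 4000 + (101 * η + θ / 2) * r)) := by
      push_cast at hb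
      rcases le_total ((UU p q t (t + 202 * r) : ℝ) - r / 2000 + θ * r) (-(KK p q t (t + 202 * r) : ℝ) + η * (202 * r)) with hle | hle
      · refine LTH_mono ha (Real.rpow_le_rpow_of_exponent_le hN1 ?_)
        linarith
      · refine LTH_mono hb (Real.rpow_le_rpow_of_exponent_le hN1 ?_)
        linarith
    have h2 := hLSP (t - s) (202 * r) (sh s p) (sh s q) _ _ (Real.rpow_nonneg hN0.le _) (Real.rpow_nonneg hN0.le _) ih (by
      rw [LTH_shsh p hst, LTH_shsh q hst]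
      exact hmean)
    have h3 : t - s + 202 * r = t + 202 * r - s := by omega
    rw [h3] at h2
    refine LTH_mono h2 ?_
    rw [LTH_kka p q hst (Nat.le_add_right t (202 * r)), LTH_uua p q hst (Nat.le_add_right t (202 * r))]
    have hC0' : C0 ≤ (N0 : ℝ) ^ η := by
      rcases le_or_gt 0 C0 with h4 | h4
      · refine le_trans ?_ hC0
        exact le_mul_of_one_le_right h4 (Real.one_le_rpow hN1 hη')
      · exact h4.le.trans (Real.rpow_nonneg hN0.le _)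
    push_cast
    calc C0 * (N0 : ℝ) ^ (((UU p q s t : ℝ) - KK p q s t) / 2 - L / 808000 + μ * ((t : ℝ) - s)) * (N0 : ℝ) ^ (((UU p q t (t + 202 * r) : ℝ) - KK p q t (t + 202 * r)) / 2 - r / 4000 + (101 * η + θ / 2) * r)
        ≤ (N0 : ℝ) ^ η * (N0 : ℝ) ^ (((UU p q s t : ℝ) - KK p q s t) / 2 - L / 808000 + μ * ((t : ℝ) - s)) * (N0 : ℝ) ^ (((UU p q t (t + 202 * r) : ℝ) - KK p q t (t + 202 * r)) / 2 - r / 4000 + (101 * η + θ / 2) * r) := by gcongr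
      _ = (N0 : ℝ) ^ (η + (((UU p q s t : ℝ) - KK p q s t) / 2 - L / 808000 + μ * ((t : ℝ) - s)) + (((UU p q t (t + 202 * r) : ℝ) - KK p q t (t + 202 * r)) / 2 - r / 4000 + (101 * η + θ / 2) * r)) := by
          rw [← Real.rpow_add hN0, ← Real.rpow_add hN0]
      _ ≤ (N0 : ℝ) ^ (((UU p q s t : ℝ) + UU p q t (t + 202 * r) - (KK p q s t + KK p q t (t + 202 * r))) / 2 - (L + 202 * r) / 808000 + μ * ((t : ℝ) + 202 * r - s)) := by
          apply Real.rpow_le_rpow_of_exponent_le hN1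
          have h5 : η + (101 * η + θ / 2) * r ≤ 202 * μ * r := by
            have h6 : η ≤ η * r := le_mul_of_one_le_right hη0 hr1
            nlinarith
          have h8 : (r : ℝ) / 4000 = 202 * r / 808000 := by ring
          linarith

theorem LTH_large {C ε1 : ℝ} (hε : 0 < ε1) : ∃ n : ℕ, ∀ N0 : ℕ, n ≤ N0 → C ≤ (N0 : ℝ) ^ ε1 := by
  have h := ((tendsto_rpow_atTop hε).comp tendsto_natCast_atTop_atTop).eventually (eventually_ge_atTop C)
  obtain ⟨n, hn⟩ := h.exists_forall_of_atTop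
  exact ⟨n, fun N0 hN => hn N0 hN⟩

theorem LTH_proof (hLWN : LWN_stmt) (hBLQ : BLQ_stmt) (hLSP : LSP_stmt) (hHSB : HSB_stmt) : LTH_stmt := by
  intro Γ hΓ b ε hb hb2 hε
  obtain ⟨n1, hn1⟩ := hLWN Γ hΓ b ε hb hb2 hε
  obtain ⟨C, hC1, hC⟩ := hBLQ Γ hΓ
  obtain ⟨C0, hC01, hC0⟩ := hLSP
  set ε1 : ℝ := min ε 1 / 100 with hε1def
  have hmin : 0 < min ε 1 := lt_min hε one_pos
  have hε1 : 0 < ε1 := by positivity
  have hε1a : 100 * ε1 ≤ ε := by
    have := min_le_left ε 1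
    linarith
  have hε1b : 100 * ε1 ≤ 1 := by
    have := min_le_right ε 1
    linarith
  obtain ⟨n2, hn2⟩ := LTH_large (C := C) hε1
  obtain ⟨n3, hn3⟩ := LTH_large (C := C0) hε1
  refine ⟨max (max n1 n2) (max n3 2), ?_⟩
  intro N0 ρ A W hN hρ0 hρ1 hA hW p q M L hcut
  have hN1 : n1 ≤ N0 := ((le_max_left _ _).trans (le_max_left _ _)).trans hN
  have hN2 : n2 ≤ N0 := ((le_max_right _ _).trans (le_max_left _ _)).trans hN
  have hN3 : n3 ≤ N0 := ((le_max_left _ _).trans (le_max_right _ _)).trans hN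
  have hN4 : 2 ≤ N0 := ((le_max_right _ _).trans (le_max_right _ _)).trans hN
  have hNN : (1 : ℝ) ≤ N0 := by
    have : 1 ≤ N0 := by omega
    exact_mod_cast this
  have hNp : (0 : ℝ) < N0 := by linarith
  have hCN := hn2 N0 hN2
  have hC0N := hn3 N0 hN3
  have h0 : ∀ p q : ℕ → Bool, PQ W N0 0 p q 1 := by
    classical
    intro p q h g
    refine (hHSB (N0 ^ 0) (YC W N0 0 p h) (JN W N0 0 q g) (by simp) ?_).2
    intro c hc
    unfold YC at hc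
    exact Finset.mem_range.mp (Finset.mem_filter.mp hc).1
  have h1 : ∀ p q : ℕ → Bool, PQ W N0 1 p q ((N0 : ℝ) ^ (-(KK p q 0 1 : ℝ) + (2 * ρ + 2 * ε1))) := by
    intro p q
    obtain ⟨ha, hb'⟩ := hC b 1 N0 A W p q hb (by linarith) le_rfl hNN hN4 hW
    have hk : (KK p q 0 1 : ℝ) = if p 0 = true ∧ q 0 = true then (1 : ℝ) else 0 := by
      have h01 : Finset.Ico 0 1 = {0} := rfl
      rw [LTH_kk, h01, Finset.sum_singleton]
    by_cases hpq : p 0 = true ∧ q 0 = true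
    · rw [hk, if_pos hpq]
      refine LTH_mono (hb' hpq.1 hpq.2) ?_
      have h2 : C * 1 * (A.card : ℝ) ≤ (N0 : ℝ) ^ ε1 * (N0 : ℝ) ^ ρ := by
        rw [mul_one]
        exact mul_le_mul hCN hA (Nat.cast_nonneg _) (Real.rpow_nonneg hNp.le _)
      have h3 : 0 ≤ C * 1 * (A.card : ℝ) := by
        have : 0 ≤ C := by linarith
        positivity
      calc (C * 1 * (A.card : ℝ)) ^ 2 / N0 ≤ ((N0 : ℝ) ^ ε1 * (N0 : ℝ) ^ ρ) ^ 2 / N0 := by gcongr
        _ = (N0 : ℝ) ^ (-1 + (2 * ρ + 2 * ε1)) := by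
          rw [← Real.rpow_add hNp, ← Real.rpow_natCast, ← Real.rpow_mul hNp.le, div_eq_mul_inv, ← Real.rpow_neg_one (N0 : ℝ), ← Real.rpow_add hNp]
          congr 1
          push_cast
          ring
    · rw [hk, if_neg hpq]
      refine LTH_mono ha ?_
      apply Real.one_le_rpow hNN
      linarith
  have hfin := LTH_ind (W := W) (N0 := N0) (C0 := C0) (η := 2 * ρ + 3 * ε1) (η' := 2 * ρ + 2 * ε1) (θ := ε + 500 * ρ) (by omega)
    (fun k1 k2 p q Q1 Q2 hQ1 hQ2 => hC0 W N0 k1 k2 p q Q1 Q2 (by omega) hQ1 hQ2) h0 (by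
      calc C0 * (N0 : ℝ) ^ (2 * ρ + 2 * ε1) ≤ (N0 : ℝ) ^ ε1 * (N0 : ℝ) ^ (2 * ρ + 2 * ε1) := mul_le_mul_of_nonneg_right hC0N (Real.rpow_nonneg hNp.le _)
        _ = (N0 : ℝ) ^ (2 * ρ + 3 * ε1) := by
          rw [← Real.rpow_add hNp]
          congr 1
          ring) (by linarith) (by linarith) h1
    (fun p q r hwin => hn1 N0 ρ A W hN1 hρ0 hρ1 hA hW p q r hwin) (μ := ε + 500 * ρ) (by linarith) (by linarith) q hcut
  have hs0 : ∀ p : ℕ → Bool, sh 0 p = p := by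
    intro p
    funext i
    unfold sh
    rw [zero_add]
  have h2 := hfin.2
  rw [hs0, hs0, Nat.sub_zero, LTH_id] at h2
  refine LTH_mono h2 (le_of_eq ?_)
  congr 1
  push_cast
  ring

end

end Pool.Agent.T1
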