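import Pool.Agent.helper52.T1.SpecF
import Pool.Agent.helper46.T1.SpecP
import Pool.Agent.helper62.MS.SpecD
import Pool.Agent.helper41.MS.EQ4

/-!
# T1, application of the row LTR: auxiliary lemmas
-/

set_option autoImplicit false

open scoped MatrixGroups ContDiff Topology UpperHalfPlane ComplexConjugate
open UpperHalfPlane MeasureTheory Filter Set

namespace Pool.Agent.T1

open Pool.Agent.RS Pool.Agent.MS Pool.Agent.HV

noncomputable section

/-- the correlation with the complement -/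
def qq (a b : ℝ) : ℝ := a * (1 - b) + (1 - a) * b

lemma APL_qq01 {a b : ℝ} (ha : 0 ≤ a ∧ a ≤ 1) (hb : 0 ≤ b ∧ b ≤ 1) : 0 ≤ qq a b ∧ qq a b ≤ 1 := by
  obtain ⟨h1, h2⟩ := ha
  obtain ⟨h3, h4⟩ := hb
  unfold qq
  constructor
  · nlinarith [mul_nonneg h1 (sub_nonneg.2 h4), mul_nonneg (sub_nonneg.2 h2) h3]
  · nlinarith [mul_nonneg h1 h3, mul_nonneg (sub_nonneg.2 h2) (sub_nonneg.2 h4)]

lemma APL_sq_le {a b : ℝ} (ha : 0 ≤ a ∧ a ≤ 1) (hb : 0 ≤ b ∧ b ≤ 1) : (a - b) ^ 2 ≤ qq a b := by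
  obtain ⟨h1, h2⟩ := ha
  obtain ⟨h3, h4⟩ := hb
  unfold qq
  nlinarith [mul_nonneg h1 (sub_nonneg.2 h2), mul_nonneg h3 (sub_nonneg.2 h4)]

lemma APL_var_le {a b : ℝ} (ha : 0 ≤ a ∧ a ≤ 1) (hb : 0 ≤ b ∧ b ≤ 1) : a * (1 - a) ≤ qq a b := by
  obtain ⟨h1, h2⟩ := ha
  obtain ⟨h3, h4⟩ := hb
  unfold qq
  nlinarith [mul_nonneg h3 (sub_nonneg.2 h4), sq_nonneg (a - b)]

lemma APL_qint (x : ℝ → ℝ) (hx : Continuous x) (a U : ℝ) (hU : 0 < U) :
    ∫ v in (0 : ℝ)..U, qq a (x v) = U * qq a ((∫ v in (0 : ℝ)..U, x v) / U) := by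
  have h1 : (fun v => qq a (x v)) = fun v => a + (1 - 2 * a) * x v := by
    funext v
    unfold qq
    ring
  have h2 : IntervalIntegrable (fun v => (1 - 2 * a) * x v) volume 0 U := (continuous_const.mul hx).intervalIntegrable _ _
  rw [h1, intervalIntegral.integral_add (by simp) h2, intervalIntegral.integral_const_mul, intervalIntegral.integral_const]
  unfold qq
  simp only [smul_eq_mul, sub_zero]
  field_simp
  ring

/-- invariance at one time from the correlations -/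
theorem APL_q (x : ℝ → ℝ) (hx : Continuous x) (h01 : ∀ v, 0 ≤ x v ∧ x v ≤ 1) (U u0 : ℝ) (hU : 0 < U) (h0 : 0 ≤ u0) (h1 : 2 * u0 ≤ U) :
    (x 0 - x u0) ^ 2 ≤ 4 * (qq (x 0) ((∫ v in (0 : ℝ)..U, x v) / U) + qq (x u0) ((∫ v in (0 : ℝ)..U, x (u0 + v)) / U)) := by
  have hqc : ∀ a : ℝ, Continuous fun v => qq a (x v) := by
    intro a
    unfold qq
    fun_prop
  have hqc' : ∀ a : ℝ, Continuous fun v => qq a (x (u0 + v)) := by
    intro a
    unfold qq
    fun_prop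
  have hq0 : ∀ a b : ℝ, 0 ≤ qq (x a) (x b) := fun a b => (APL_qq01 (h01 a) (h01 b)).1
  have e1 := APL_qint x hx (x 0) U hU
  have e2 := APL_qint (fun v => x (u0 + v)) (by fun_prop) (x u0) U hU
  have hii : ∀ (f : ℝ → ℝ) (a b : ℝ), Continuous f → IntervalIntegrable f volume a b := fun f a b hf => hf.intervalIntegrable a b
  have e3 : ∫ v in (U / 2)..U, (x 0 - x u0) ^ 2 ≤ ∫ v in (U / 2)..U, (2 * qq (x 0) (x v) + 2 * qq (x u0) (x v)) := by
    refine intervalIntegral.integral_mono_on (by linarith) (by simp) (hii _ _ _ (by have := hqc (x 0); have := hqc (x u0); fun_prop)) ?_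
    intro v _
    have q1 := APL_sq_le (h01 0) (h01 v)
    have q2 := APL_sq_le (h01 u0) (h01 v)
    nlinarith [sq_nonneg ((x 0 - x v) - (x v - x u0))]
  have f1 : ∀ a : ℝ, IntervalIntegrable (fun v => 2 * qq a (x v)) volume (U / 2) U := fun a => hii _ _ _ (continuous_const.mul (hqc a))
  rw [intervalIntegral.integral_const, intervalIntegral.integral_add (f1 _) (f1 _),
    intervalIntegral.integral_const_mul, intervalIntegral.integral_const_mul, smul_eq_mul] at e3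
  have e4 : ∫ v in (U / 2)..U, qq (x 0) (x v) ≤ ∫ v in (0 : ℝ)..U, qq (x 0) (x v) := by
    refine intervalIntegral.integral_mono_interval (by linarith) (by linarith) le_rfl ?_ (hii _ _ _ (hqc _))
    exact Eventually.of_forall fun v => hq0 0 v
  have e5 : ∫ v in (U / 2)..U, qq (x u0) (x v) = ∫ v in (U / 2 - u0)..(U - u0), qq (x u0) (x (u0 + v)) := by
    have := intervalIntegral.integral_comp_add_left (a := U / 2 - u0) (b := U - u0) (fun v => qq (x u0) (x v)) u0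
    rw [this]
    congr 1 <;> ring
  have e6 : ∫ v in (U / 2 - u0)..(U - u0), qq (x u0) (x (u0 + v)) ≤ ∫ v in (0 : ℝ)..U, qq (x u0) (x (u0 + v)) := by
    refine intervalIntegral.integral_mono_interval (by linarith) (by linarith) (by linarith) ?_ (hii _ _ _ (hqc' _))
    exact Eventually.of_forall fun v => hq0 u0 (u0 + v)
  rw [e5] at e3
  rw [e1] at e4
  rw [e2] at e6
  have e7 : U / 2 * (x 0 - x u0) ^ 2 ≤ 2 * (U * qq (x 0) ((∫ v in (0 : ℝ)..U, x v) / U)) + 2 * (U * qq (x u0) ((∫ v in (0 : ℝ)..U, x (u0 + v)) / U)) := by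
    have : U - U / 2 = U / 2 := by ring
    rw [this] at e3
    linarith
  have e8 : U / 2 * (x 0 - x u0) ^ 2 ≤ U / 2 * (4 * (qq (x 0) ((∫ v in (0 : ℝ)..U, x v) / U) + qq (x u0) ((∫ v in (0 : ℝ)..U, x (u0 + v)) / U))) := by
    refine e7.trans (le_of_eq ?_)
    ring
  exact le_of_mul_le_mul_left e8 (by linarith)

/-! ## The law of `g` -/

/-- the law of `g` -/
def PM (F : Set ℍ) (β α : ℝ → ℝ) (r : ℝ) (φ : ℍ → ℂ) : Measure SL(2, ℝ) :=
  (mG.restrict (dG F)).withDensity fun g => ENNReal.ofReal (r * ‖pf β α r φ g‖ ^ 2)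

lemma APL_pfm {Γ : Subgroup SL(2, ℝ)} (hFL0 : RS.FL0_stmt) (hCV1 : RS.CV1_stmt) (hGBD : RS.GBD_stmt) (hΓ : QU.SurfaceGroup Γ)
    {β α : ℝ → ℝ} (hβ : BB (1 / 4) β) (hα : BA (1 / 4) α) {r lam : ℝ} {φ : ℍ → ℂ} (hφ : EigL Γ lam φ) :
    Continuous (fun g => ‖pf β α r φ g‖) ∧ ∃ m : ℝ, ∀ g, ‖pf β α r φ g‖ ≤ m := by
  have h := EQ4_pf hFL0 hCV1 hGBD hΓ hβ.1 hα.1 r (φ := φ) ⟨EQ4_cont hφ.1, hφ.2.1⟩
  exact ⟨h.1.1.norm, h.2⟩

theorem PM_int (F : Set ℍ) (β α : ℝ → ℝ) (r : ℝ) (φ : ℍ → ℂ) (hr : 0 ≤ r) (hc : Continuous (fun g => ‖pf β α r φ g‖))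
    (f : SL(2, ℝ) → ℝ) : ∫ g, f g ∂(PM F β α r φ) = EX F β α r φ f := by
  have hm : Measurable fun g => ENNReal.ofReal (r * ‖pf β α r φ g‖ ^ 2) := (continuous_const.mul (hc.pow 2)).measurable.ennreal_ofReal
  unfold PM EX iR
  rw [integral_withDensity_eq_integral_toReal_smul hm (Eventually.of_forall fun _ => ENNReal.ofReal_lt_top), ← integral_const_mul]
  refine integral_congr_ae (Eventually.of_forall fun g => ?_)
  simp only [smul_eq_mul]
  rw [ENNReal.toReal_ofReal (by positivity)]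
  ring

theorem PM_fin {Γ : Subgroup SL(2, ℝ)} {F : Set ℍ} (hGFD : RS.GFD_stmt) (hΓ : QU.SurfaceGroup Γ) (hF : QU.NiceDom Γ F)
    {β α : ℝ → ℝ} {r : ℝ} {φ : ℍ → ℂ} (hr : 0 ≤ r) (hc : Continuous (fun g => ‖pf β α r φ g‖)) (hb : ∃ m : ℝ, ∀ g, ‖pf β α r φ g‖ ≤ m) :
    IsFiniteMeasure (PM F β α r φ) := by
  obtain ⟨⟨-, -, hfin, -⟩, -⟩ := hGFD Γ F hΓ hF
  obtain ⟨m, hm⟩ := hb
  have hfm : IsFiniteMeasure (mG.restrict (dG F)) := ⟨by rw [Measure.restrict_apply_univ]; exact hfin⟩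
  have hi : Integrable (fun g => r * ‖pf β α r φ g‖ ^ 2) (mG.restrict (dG F)) := by
    refine Integrable.of_bound (continuous_const.mul (hc.pow 2)).aestronglyMeasurable (r * m ^ 2) (Eventually.of_forall fun g => ?_)
    rw [Real.norm_eq_abs, abs_of_nonneg (by positivity)]
    exact mul_le_mul_of_nonneg_left (pow_le_pow_left₀ (norm_nonneg _) (hm g) 2) hr
  exact isFiniteMeasure_withDensity_ofReal hi.2

/-- bounded continuous functions -/
lemma APL_ii {X : Type} [TopologicalSpace X] [MeasurableSpace X] [BorelSpace X] [SecondCountableTopology X] (P : Measure X) [IsFiniteMeasure P] {f : X → ℝ} (hf : Continuous f) {B : ℝ} (hB : ∀ x, |f x| ≤ B) :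
    Integrable f P :=
  Integrable.of_bound hf.aestronglyMeasurable B (Eventually.of_forall fun x => by rw [Real.norm_eq_abs]; exact hB x)

/-- stationarity for functions with bounded derivatives -/
theorem APL_sta (hINW : MS.INW_stmt) (Γ : Subgroup SL(2, ℝ)) (F : Set ℍ) (β α : ℝ → ℝ) (hΓ : QU.SurfaceGroup Γ) (hF : QU.NiceDom Γ F) (hβ : BB (1 / 4) β) (hα : BA (1 / 4) α)
    (B η : ℝ) (hB : 0 ≤ B) (hη : 0 < η) : ∃ R0 : ℝ, 1 ≤ R0 ∧ ∀ (r : ℝ) (φ : ℍ → ℂ), R0 ≤ r → EigL Γ (1 / 4 + r ^ 2) φ → nn F φ = 1 →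
      ∀ Ψ Ψa Ψn Ψl : SL(2, ℝ) → ℝ, SF Γ Ψ Ψa Ψn Ψl → (∀ g, |Ψ g| ≤ 1) → (∀ g, |Ψn g| ≤ B) → (∀ g, |Ψl g| ≤ B) →
        ∀ t t' : ℝ, Real.sqrt (Real.log r) ≤ t → t ≤ Real.log r - Real.sqrt (Real.log r) → Real.sqrt (Real.log r) ≤ t' → t' ≤ Real.log r - Real.sqrt (Real.log r) →
          |EX F β α r φ (fun g => Ψ (g * aM t)) - EX F β α r φ (fun g => Ψ (g * aM t'))| ≤ η := by
  obtain ⟨K, r1, hK, hr1, hI⟩ := hINW Γ F β α hΓ hF hβ hα
  have hK0 : 0 < K := by linarith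
  have hs : Tendsto (fun r : ℝ => Real.sqrt (Real.log r)) atTop atTop := Real.tendsto_sqrt_atTop.comp Real.tendsto_log_atTop
  have h1 : Tendsto (fun r : ℝ => K * (2 * B * Real.exp (-Real.sqrt (Real.log r)) + Real.log r / r)) atTop (𝓝 (K * (2 * B * 0 + 0))) := by
    refine Tendsto.const_mul _ (Tendsto.add (Tendsto.const_mul _ ?_) ?_)
    · exact Real.tendsto_exp_neg_atTop_nhds_zero.comp hs
    · have := Real.isLittleO_log_id_atTop.tendsto_div_nhds_zero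
      simpa using this
  have h2 : ∀ᶠ r : ℝ in atTop, K * (2 * B * Real.exp (-Real.sqrt (Real.log r)) + Real.log r / r) < η := by
    refine h1.eventually_lt_const ?_
    simpa using hη
  obtain ⟨R, hR⟩ := Filter.eventually_atTop.1 h2
  refine ⟨max r1 (max R 1), (le_max_right R 1).trans (le_max_right _ _), ?_⟩
  intro r φ hr hφ hnn Ψ Ψa Ψn Ψl hSF h01 hn hl
  have hrr1 : r1 ≤ r := (le_max_left _ _).trans hr
  have hrR : R ≤ r := ((le_max_left _ _).trans (le_max_right _ _)).trans hr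
  have hr11 : 1 ≤ r := ((le_max_right _ _).trans (le_max_right _ _)).trans hr
  have hr0 : 0 < r := by linarith
  have hb := (hR r hrR).le
  have hs0 : 0 ≤ Real.sqrt (Real.log r) := Real.sqrt_nonneg _
  have main : ∀ t t' : ℝ, Real.sqrt (Real.log r) ≤ t → t ≤ t' → t' ≤ Real.log r - Real.sqrt (Real.log r) →
      |EX F β α r φ (fun g => Ψ (g * aM t')) - EX F β α r φ (fun g => Ψ (g * aM t))| ≤ η := by
    intro t t' ht htt' ht'
    have h3 := hI r φ hrr1 hφ Ψ Ψa Ψn Ψl B B hSF h01 hn hl t t' (hs0.trans ht) htt'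
    rw [hnn, mul_one] at h3
    unfold EX
    refine h3.trans (le_trans (mul_le_mul_of_nonneg_left ?_ hK0.le) hb)
    have e1 : Real.exp (-t) ≤ Real.exp (-Real.sqrt (Real.log r)) := Real.exp_le_exp.2 (neg_le_neg ht)
    have e2 : Real.exp t' ≤ r * Real.exp (-Real.sqrt (Real.log r)) := by
      calc Real.exp t' ≤ Real.exp (Real.log r - Real.sqrt (Real.log r)) := Real.exp_le_exp.2 ht'
        _ = r * Real.exp (-Real.sqrt (Real.log r)) := by rw [sub_eq_add_neg, Real.exp_add, Real.exp_log hr0]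
    have e3 : (t' + B * Real.exp t') / r ≤ Real.log r / r + B * Real.exp (-Real.sqrt (Real.log r)) := by
      rw [div_le_iff₀ hr0, add_mul, div_mul_cancel₀ _ hr0.ne']
      nlinarith [mul_le_mul_of_nonneg_left e2 hB]
    nlinarith [mul_le_mul_of_nonneg_left e1 hB]
  intro t t' ht1 ht2 ht3 ht4
  rcases le_total t t' with h | h
  · rw [abs_sub_comm]
    exact main t t' ht1 h ht4
  · exact main t' t ht3 h ht2

end

end Pool.Agent.T1
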