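import Pool.Agent.helper94.T1.AP1

/-!
# T1: the row LBL, splitting: `t1:LB1`

RULES: file `Pool/Agent/<seat>/T1/LB1.lean`, `import Pool.Agent.helper94.T1.SpecA`, namespace `Pool.Agent.T1`, auxiliary lemmas prefixed `LB1_`. `PM F β α r φ` (AP1.lean) is the law `r |pf|² dg` of `g` as a measure, `PM_int`: `∫ f dPM = EX f`; `PM_fin`: finite; `APL_pfm`: `‖pf‖` is continuous and bounded. `TP.Ev` and `EX` are the same (`rfl`).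
-/

set_option autoImplicit false

open scoped MatrixGroups ContDiff Topology UpperHalfPlane ComplexConjugate
open UpperHalfPlane MeasureTheory Filter Set

namespace Pool.Agent.T1

open Pool.Agent.RS Pool.Agent.MS Pool.Agent.HV

noncomputable section

/-- **Row LB1** (the hypothesis (H3) of LTR; medium; from TP.PDF, TP.PIN, TP.PCH, TP.PAV, RS.GFD, FL0, CV1, GBD, MS.STB). `L = log r`, `n = log N0`, `W = w0 L`, `W' = M' n`, `|W - W'| ≤ n`. `c2, c3` from PDF; here `c2' = c2/4`, `c3' = c3/4`. `A = av κ W' (g a_t)`, `A1 = av κ W' (g a_(t + W'))`, `f = av κ W (g a_t)`.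
(1) `|A - f| ≤ 2 n/W ≤ ε1 = min (c2/2) (1/1000)` for large `r`. (2) `h x = 1 - χ(a x + b)` (`χ` from PCH), `h = 1` for `x ≤ 1/30`, `h = 0` for `x ≥ 1/26` (`h ∈ CB`): `P(A1 < 1/30) ≤ EX h(A1) ≤ EX h(A) + η ≤ P(A < 1/26) + η` by PIN (first part, `ζ = h`, times `t + W'` and `t`, `t + 2W' ≤ log r - n - s` for large `r`).
(3) `{A ≥ 1 - 4c2'} ⊆ {f > 1 - 2c2}`, `{A < 1/26} ⊆ {f < 1/25}`, both disjoint from `{1/25 ≤ f ≤ 1 - 2c2}`, which has probability `≥ c3` (PDF at the time `t`; `EX` of the indicator `= PM.real` of the set, PM_int). Sum `≤ P(univ) - c3 + η`, `η = c3/2`. -/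
def LB1_stmt : Prop := ∀ β α : ℝ → ℝ, BB (1 / 4) β → BA (1 / 8) α → ∀ w0 : ℝ, 0 < w0 → w0 ≤ 1 / 100 → ∃ c2 c3 : ℝ, 0 < c2 ∧ c2 ≤ 1 / 100 ∧ 0 < c3 ∧ ∀ (Γ : Subgroup SL(2, ℝ)) (F : Set ℍ), QU.SurfaceGroup Γ → QU.NiceDom Γ F → ∃ a1 : ℝ, 0 < a1 ∧
  ∀ a Cκ : ℝ, 0 < a → a ≤ a1 → 1 ≤ Cκ → ∃ n1 : ℕ, ∀ (N0 : ℕ) (A : Finset SL(2, ℝ)) (κ κa κn κl : SL(2, ℝ) → ℝ), n1 ≤ N0 → CO Γ a Cκ (1 / 1000) N0 A κ κa κn κl → ∃ R0 : ℝ, 1 ≤ R0 ∧
    ∀ (r t1 : ℝ) (φ : ℍ → ℂ), R0 ≤ r → EigL Γ (1 / 4 + r ^ 2) φ → nn F φ = 1 → Real.sqrt (Real.log r) ≤ t1 → t1 ≤ Real.log r - Real.sqrt (Real.log r) → 1 / 5 ≤ EX F β α r φ (fun g => κ (g * aM t1)) →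
      ∀ (t : ℝ) (M' : ℕ), w0 * Real.log r ≤ t → t ≤ (1 - 4 * w0) * Real.log r → M' * Real.log N0 ≤ w0 * Real.log r → w0 * Real.log r < (M' + 1) * Real.log N0 →
        (PM F β α r φ).real {g | 1 - 4 * c2 ≤ TP.av κ (M' * Real.log N0) (g * aM t)} + (PM F β α r φ).real {g | TP.av κ (M' * Real.log N0) (g * aM (t + M' * Real.log N0)) < 1 / 30} ≤
          (PM F β α r φ).real univ - 2 * c3

end

end Pool.Agent.T1
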