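import Pool.Agent.helper94.T1.AP3
import Pool.Agent.helper94.T1.SpecA
import Pool.Agent.helper63.T1.SpecL

/-!
# T1, row t1:LBL: many labels have many deep points and many `K` in the second half
-/

set_option autoImplicit false

open scoped MatrixGroups ContDiff Topology UpperHalfPlane ComplexConjugate
open UpperHalfPlane MeasureTheory Filter Set

namespace Pool.Agent.T1

open Pool.Agent.RS Pool.Agent.MS Pool.Agent.HV

noncomputable section

theorem LBL_proof (hLTR : LTR2_stmt) (hLB1 : LB1_stmt) (hPSF : TP.PSF_stmt) (hPAV : TP.PAV_stmt) (hINW : MS.INW_stmt) (hNM3 : MS.NM3_stmt) (hSTB : MS.STB_stmt)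
    (hGFD : RS.GFD_stmt) (hGBD : RS.GBD_stmt) (hFL0 : RS.FL0_stmt) (hCV1 : RS.CV1_stmt) (hGLC : RS.GLC_stmt) : LBL_stmt := by
  intro β α hβ hα w0 y0 hw0 hw1 hy0
  obtain ⟨c2, c3, hc2, hc2', hc3, h1⟩ := hLB1 β α hβ hα w0 hw0 hw1
  obtain ⟨δ, M0, hδ, -, hL⟩ := hLTR c2 c3 y0 hc2 (by linarith) hc3 hy0
  refine ⟨c2, c3, δ / 2, hc2, hc3, by positivity, ?_⟩
  intro Γ F hΓ hF
  have hα4 : BA (1 / 4) α := (hSTB.2.2.2.2.1 (1 / 8) (1 / 4) α (by norm_num)).2.1 hα
  obtain ⟨a1, ha1, h2⟩ := h1 Γ F hΓ hF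
  refine ⟨a1, ha1, ?_⟩
  intro a Cκ ha haa hC
  obtain ⟨n1, h3⟩ := h2 a Cκ ha haa hC
  refine ⟨max n1 2, ?_⟩
  intro N0 A κ κa κn κl hN hCO
  obtain ⟨R0, hR0, h4⟩ := h3 N0 A κ κa κn κl ((le_max_left _ _).trans hN) hCO
  have hN2 : 2 ≤ N0 := (le_max_right _ _).trans hN
  have hN2' : (2 : ℝ) ≤ N0 := by exact_mod_cast hN2
  have hn0 : 0 < Real.log N0 := Real.log_pos (by linarith)
  have hlc := hGLC.1
  have hsc := hGLC.2.1
  have haM : Continuous aM := hGLC.2.2.2.1
  have hκc : Continuous κ := hCO.sf.i0.1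
  have hκu : ∀ g, Continuous fun u => κ (g * aM u) := fun g => hκc.comp (continuous_const.mul haM)
  obtain ⟨R1, hR1, h5⟩ := SFx_sta hINW hGBD Γ F β α hΓ hF hβ hα4 _ (LBL_BdSF hPSF hPAV hGBD hΓ ⟨κa, κn, κl, hCO.sf⟩ hCO.k01 hκu N0 y0 hn0) (δ / 2) (by positivity)
  obtain ⟨r0, hr0, h6⟩ := hNM3 Γ F α β hΓ hF hα4 hβ 1 one_pos
  refine ⟨max (max R0 R1) (max r0 (max (Real.exp (1 / w0 ^ 2)) (Real.exp ((M0 + 1) * Real.log N0 / w0)))), (hR0.trans (le_max_left _ _)).trans (le_max_left _ _), ?_⟩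
  intro r t1 φ hr hφ hnn h7 h8 h9 h10 t M' h11 h12 h13 h14
  have hrR0 : R0 ≤ r := ((le_max_left _ _).trans (le_max_left _ _)).trans hr
  have hrR1 : R1 ≤ r := ((le_max_right _ _).trans (le_max_left _ _)).trans hr
  have hrr0 : r0 ≤ r := ((le_max_left _ _).trans (le_max_right _ _)).trans hr
  have hre1 : Real.exp (1 / w0 ^ 2) ≤ r := (((le_max_left _ _).trans (le_max_right _ _)).trans (le_max_right _ _)).trans hr
  have hre2 : Real.exp ((M0 + 1) * Real.log N0 / w0) ≤ r := (((le_max_right _ _).trans (le_max_right _ _)).trans (le_max_right _ _)).trans hr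
  have hr1 : 1 ≤ r := hR0.trans hrR0
  have hrp : 0 < r := by linarith
  have hL1 : 1 / w0 ^ 2 ≤ Real.log r := (Real.le_log_iff_exp_le hrp).2 hre1
  have hL2 : (M0 + 1) * Real.log N0 / w0 ≤ Real.log r := (Real.le_log_iff_exp_le hrp).2 hre2
  have hL0 : 0 < Real.log r := lt_of_lt_of_le (by positivity) hL1
  have hsq : Real.sqrt (Real.log r) ≤ w0 * Real.log r := by
    rw [Real.sqrt_le_left (by positivity)]
    have e1 : 1 ≤ w0 ^ 2 * Real.log r := by
      rw [div_le_iff₀ (by positivity)] at hL1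
      linarith
    have e2 : (w0 * Real.log r) ^ 2 = (w0 ^ 2 * Real.log r) * Real.log r := by ring
    rw [e2]
    exact le_mul_of_one_le_left hL0.le e1
  have hM0 : M0 ≤ M' := by
    have e1 : (M0 + 1) * Real.log N0 ≤ w0 * Real.log r := by
      rw [div_le_iff₀ hw0] at hL2
      linarith
    have e2 : ((M0 : ℝ) + 1) * Real.log N0 < (M' + 1) * Real.log N0 := lt_of_le_of_lt e1 h14
    have e3 : (M0 : ℝ) + 1 < M' + 1 := lt_of_mul_lt_mul_right e2 hn0.le
    have e4 : (M0 : ℝ) < M' := by linarith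
    have e5 : M0 < M' := by exact_mod_cast e4
    omega
  have : SecondCountableTopology SL(2, ℝ) := hsc
  obtain ⟨hpc, hpb⟩ := APL_pfm (r := r) hFL0 hCV1 hGBD hΓ hβ hα4 hφ
  have hfin : IsFiniteMeasure (PM F β α r φ) := PM_fin hGFD hΓ hF hrp.le hpc hpb
  have huniv : (PM F β α r φ).real univ ≤ 2 := by
    have e1 : (PM F β α r φ).real univ = ∫ g, (1 : ℝ) ∂(PM F β α r φ) := by simp
    rw [e1, PM_int F β α r φ hrp.le hpc]
    have e2 := (h6 r hrr0).2 φ hφ
    rw [hnn, mul_one, abs_le] at e2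
    have e3 : EX F β α r φ (fun _ => (1 : ℝ)) = r * qn F (pc β α) r φ := by
      unfold EX
      simp only [one_mul]
      rfl
    rw [e3]
    linarith [e2.2]
  have hmeas : Measurable (Function.uncurry fun (s : ℝ) (g : SL(2, ℝ)) => κ (g * aM (t + s))) := by
    have e : Continuous (Function.uncurry fun (s : ℝ) (g : SL(2, ℝ)) => κ (g * aM (t + s))) :=
      hκc.comp (continuous_snd.mul (haM.comp (continuous_const.add continuous_fst)))
    exact e.measurable
  have hMn : (((2 * M' : ℕ) : ℝ)) * Real.log N0 ≤ 2 * (w0 * Real.log r) := by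
    push_cast
    linarith
  have hrange : ∀ s : ℝ, 0 ≤ s → s ≤ ((2 * M' : ℕ) : ℝ) * Real.log N0 → Real.sqrt (Real.log r) ≤ t + s ∧ t + s ≤ Real.log r - Real.sqrt (Real.log r) := by
    intro s hs1 hs2
    constructor
    · linarith
    · have e : (1 - 4 * w0) * Real.log r = Real.log r - 4 * (w0 * Real.log r) := by ring
      have : 0 ≤ w0 * Real.log r := by positivity
      linarith
  have key := hL SL(2, ℝ) (PM F β α r φ) (fun s g => κ (g * aM (t + s))) (Real.log N0) M' huniv hM0 hn0 hmeas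
    (fun s g => hCO.k01 _)
    (fun i hi => by
      have hi' : ((i : ℕ) : ℝ) * Real.log N0 ≤ ((2 * M' : ℕ) : ℝ) * Real.log N0 := mul_le_mul_of_nonneg_right (by exact_mod_cast hi.le) hn0.le
      have e1 : (fun g : SL(2, ℝ) => (∑ j ∈ Finset.range (y0 + 1), bk (fun s g => κ (g * aM (t + s))) ((i : ℕ) * Real.log N0) ((j : ℕ) * Real.log N0) g +
          (∫ u in (0 : ℝ)..Real.log N0, bk (fun s g => κ (g * aM (t + s))) ((i : ℕ) * Real.log N0) u g) / Real.log N0)) = fun g => Bd κ N0 y0 (g * aM (t + i * Real.log N0)) := by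
        funext g
        unfold Bd bk bad
        simp only [LBL_am, add_assoc]
      rw [e1, PM_int F β α r φ hrp.le hpc]
      have q1 := hrange (i * Real.log N0) (by positivity) hi'
      have q := h5 r φ hrR1 hφ hnn (t + i * Real.log N0) t1 q1.1 q1.2 h7 h8
      rw [abs_le] at q
      linarith [q.2])
    (by
      have q := h4 r t1 φ hrR0 hφ hnn h7 h8 h9 t M' h11 h12 h13 h14
      have e1 : ∀ g : SL(2, ℝ), (∫ s in (0 : ℝ)..(M' * Real.log N0), κ (g * aM (t + s))) / (M' * Real.log N0) = TP.av κ (M' * Real.log N0) (g * aM t) := by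
        intro g
        unfold TP.av
        simp only [LBL_am]
      have e2 : ∀ g : SL(2, ℝ), (∫ s in (0 : ℝ)..(M' * Real.log N0), κ (g * aM (t + (M' * Real.log N0 + s)))) / (M' * Real.log N0) = TP.av κ (M' * Real.log N0) (g * aM (t + M' * Real.log N0)) := by
        intro g
        unfold TP.av
        simp only [LBL_am, add_assoc]
      simp only [e1, e2]
      exact q)
  refine key.trans (le_of_eq ?_)
  have hpi : ∀ p : Fin (2 * M') → Bool, Integrable (fun g => ∏ i : Fin (2 * M'), if p i = true then κ (g * aM t * aM ((i : ℕ) * Real.log N0)) else 1 - κ (g * aM t * aM ((i : ℕ) * Real.log N0))) (PM F β α r φ) := by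
    intro p
    refine APL_ii _ ?_ (B := 1) fun g => ?_
    · refine continuous_finsetProd _ fun i _ => ?_
      have e : Continuous fun g : SL(2, ℝ) => κ (g * aM t * aM ((i : ℕ) * Real.log N0)) := hκc.comp ((continuous_mul_const _).comp (continuous_mul_const _))
      by_cases hp : p i = true
      · simp only [hp, if_true]
        exact e
      · simp only [hp]
        exact continuous_const.sub e
    · rw [Finset.abs_prod]
      refine Finset.prod_le_one (fun i _ => abs_nonneg _) fun i _ => ?_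
      have q := hCO.k01 (g * aM t * aM ((i : ℕ) * Real.log N0))
      by_cases hp : p i = true
      · rw [if_pos hp, abs_of_nonneg q.1]
        exact q.2
      · rw [if_neg hp, abs_of_nonneg (by linarith [q.2])]
        linarith [q.1]
  unfold LW
  rw [← PM_int F β α r φ hrp.le hpc]
  unfold Ps
  rw [integral_finsetSum _ fun p _ => hpi p]
  refine Finset.sum_congr rfl fun p _ => ?_
  refine integral_congr_ae (Eventually.of_forall fun g => ?_)
  simp only [LBL_am]

end

end Pool.Agent.T1
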