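import Pool.Agent.helper94.T1.AP1

/-!
# T1, application of the row LTR: the correlations
-/

set_option autoImplicit false

open scoped MatrixGroups ContDiff Topology UpperHalfPlane ComplexConjugate
open UpperHalfPlane MeasureTheory Filter Set

namespace Pool.Agent.T1

open Pool.Agent.RS Pool.Agent.MS Pool.Agent.HV

noncomputable section

lemma LBL_sfadd {Γ : Subgroup SL(2, ℝ)} {Ψ Ψa Ψn Ψl Φ Φa Φn Φl : SL(2, ℝ) → ℝ} (h : SF Γ Ψ Ψa Ψn Ψl) (h' : SF Γ Φ Φa Φn Φl) :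
    SF Γ (fun g => Ψ g + Φ g) (fun g => Ψa g + Φa g) (fun g => Ψn g + Φn g) (fun g => Ψl g + Φl g) :=
  ⟨⟨h.i0.1.add h'.i0.1, fun γ g => by simp only [h.i0.2 γ g, h'.i0.2 γ g]⟩, ⟨h.ia.1.add h'.ia.1, fun γ g => by simp only [h.ia.2 γ g, h'.ia.2 γ g]⟩,
    ⟨h.i1.1.add h'.i1.1, fun γ g => by simp only [h.i1.2 γ g, h'.i1.2 γ g]⟩, ⟨h.il.1.add h'.il.1, fun γ g => by simp only [h.il.2 γ g, h'.il.2 γ g]⟩,
    fun g => (h.da g).add (h'.da g), fun g => (h.dn g).add (h'.dn g), fun g => (h.dl g).add (h'.dl g)⟩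

lemma LBL_sfc {Γ : Subgroup SL(2, ℝ)} {Ψ Ψa Ψn Ψl : SL(2, ℝ) → ℝ} (h : SF Γ Ψ Ψa Ψn Ψl) (c : ℝ) :
    SF Γ (fun g => c * Ψ g) (fun g => c * Ψa g) (fun g => c * Ψn g) (fun g => c * Ψl g) :=
  ⟨⟨continuous_const.mul h.i0.1, fun γ g => by simp only [h.i0.2 γ g]⟩, ⟨continuous_const.mul h.ia.1, fun γ g => by simp only [h.ia.2 γ g]⟩,
    ⟨continuous_const.mul h.i1.1, fun γ g => by simp only [h.i1.2 γ g]⟩, ⟨continuous_const.mul h.il.1, fun γ g => by simp only [h.il.2 γ g]⟩,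
    fun g => (h.da g).const_mul c, fun g => (h.dn g).const_mul c, fun g => (h.dl g).const_mul c⟩

lemma LBL_sf0 (Γ : Subgroup SL(2, ℝ)) : SF Γ (fun _ => (0 : ℝ)) (fun _ => 0) (fun _ => 0) (fun _ => 0) :=
  ⟨⟨continuous_const, fun _ _ => rfl⟩, ⟨continuous_const, fun _ _ => rfl⟩, ⟨continuous_const, fun _ _ => rfl⟩, ⟨continuous_const, fun _ _ => rfl⟩,
    fun _ => hasDerivAt_const _ _, fun _ => hasDerivAt_const _ _, fun _ => hasDerivAt_const _ _⟩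

/-- smooth functions, derivatives not named -/
def SFx (Γ : Subgroup SL(2, ℝ)) (Ψ : SL(2, ℝ) → ℝ) : Prop := ∃ Ψa Ψn Ψl : SL(2, ℝ) → ℝ, SF Γ Ψ Ψa Ψn Ψl

lemma SFx_add {Γ : Subgroup SL(2, ℝ)} {Ψ Φ : SL(2, ℝ) → ℝ} (h : SFx Γ Ψ) (h' : SFx Γ Φ) : SFx Γ (fun g => Ψ g + Φ g) := by
  obtain ⟨_, _, _, h⟩ := h
  obtain ⟨_, _, _, h'⟩ := h'
  exact ⟨_, _, _, LBL_sfadd h h'⟩

lemma SFx_c {Γ : Subgroup SL(2, ℝ)} {Ψ : SL(2, ℝ) → ℝ} (h : SFx Γ Ψ) (c : ℝ) : SFx Γ (fun g => c * Ψ g) := by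
  obtain ⟨_, _, _, h⟩ := h
  exact ⟨_, _, _, LBL_sfc h c⟩

lemma SFx_sum {Γ : Subgroup SL(2, ℝ)} {ι : Type} (s : Finset ι) (f : ι → SL(2, ℝ) → ℝ) (h : ∀ i ∈ s, SFx Γ (f i)) : SFx Γ (fun g => ∑ i ∈ s, f i g) := by
  classical
  induction s using Finset.induction_on with
  | empty => exact ⟨_, _, _, by simpa using LBL_sf0 Γ⟩
  | insert a s ha ih =>
    have h1 := SFx_add (h a (Finset.mem_insert_self a s)) (ih fun i hi => h i (Finset.mem_insert_of_mem hi))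
    have h2 : (fun g => ∑ i ∈ insert a s, f i g) = fun g => f a g + ∑ i ∈ s, f i g := by
      funext g
      rw [Finset.sum_insert ha]
    rw [h2]
    exact h1

lemma SFx_qq (hPSF : TP.PSF_stmt) {Γ : Subgroup SL(2, ℝ)} {Ψ Φ : SL(2, ℝ) → ℝ} (h : SFx Γ Ψ) (h' : SFx Γ Φ) : SFx Γ (fun g => qq (Ψ g) (Φ g)) := by
  obtain ⟨_, _, _, h⟩ := h
  obtain ⟨_, _, _, h'⟩ := h'
  have h1 := (hPSF Γ _ _ _ _ h).2.2.1
  have h2 := (hPSF Γ _ _ _ _ h').2.2.1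
  exact ⟨_, _, _, LBL_sfadd ((hPSF Γ _ _ _ _ h).2.1 _ _ _ _ h2) ((hPSF Γ _ _ _ _ h1).2.1 _ _ _ _ h')⟩

lemma SFx_tr (hPSF : TP.PSF_stmt) {Γ : Subgroup SL(2, ℝ)} {Ψ : SL(2, ℝ) → ℝ} (h : SFx Γ Ψ) (t : ℝ) : SFx Γ (fun g => Ψ (g * aM t)) := by
  obtain ⟨_, _, _, h⟩ := h
  exact ⟨_, _, _, (hPSF Γ _ _ _ _ h).1 t⟩

lemma SFx_av (hPAV : TP.PAV_stmt) (hGBD : RS.GBD_stmt) {Γ : Subgroup SL(2, ℝ)} (hΓ : QU.SurfaceGroup Γ) {κ : SL(2, ℝ) → ℝ} (h : SFx Γ κ) (h01 : ∀ g, 0 ≤ κ g ∧ κ g ≤ 1) (W : ℝ) (hW : 0 < W) :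
    SFx Γ (TP.av κ W) ∧ ∀ g, 0 ≤ TP.av κ W g ∧ TP.av κ W g ≤ 1 := by
  obtain ⟨κa, κn, κl, h⟩ := h
  obtain ⟨m1, hm1⟩ := (hGBD Γ ℝ _ hΓ h.i1).1
  obtain ⟨m2, hm2⟩ := (hGBD Γ ℝ _ hΓ h.il).1
  obtain ⟨h1, -, Aa, An, Al, h2, -⟩ := hPAV Γ κ κa κn κl W m1 m2 h h01 (fun g => by simpa using hm1 g) (fun g => by simpa using hm2 g) hW
  exact ⟨⟨_, _, _, h2⟩, h1⟩

/-- stationarity -/
theorem SFx_sta (hINW : MS.INW_stmt) (hGBD : RS.GBD_stmt) (Γ : Subgroup SL(2, ℝ)) (F : Set ℍ) (β α : ℝ → ℝ) (hΓ : QU.SurfaceGroup Γ) (hF : QU.NiceDom Γ F) (hβ : BB (1 / 4) β) (hα : BA (1 / 4) α)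
    (Ψ : SL(2, ℝ) → ℝ) (hΨ : SFx Γ Ψ) (η : ℝ) (hη : 0 < η) : ∃ R0 : ℝ, 1 ≤ R0 ∧ ∀ (r : ℝ) (φ : ℍ → ℂ), R0 ≤ r → EigL Γ (1 / 4 + r ^ 2) φ → nn F φ = 1 →
        ∀ t t' : ℝ, Real.sqrt (Real.log r) ≤ t → t ≤ Real.log r - Real.sqrt (Real.log r) → Real.sqrt (Real.log r) ≤ t' → t' ≤ Real.log r - Real.sqrt (Real.log r) →
          |EX F β α r φ (fun g => Ψ (g * aM t)) - EX F β α r φ (fun g => Ψ (g * aM t'))| ≤ η := by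
  obtain ⟨Ψa, Ψn, Ψl, hΨ⟩ := hΨ
  obtain ⟨m0, hm0⟩ := (hGBD Γ ℝ _ hΓ hΨ.i0).1
  obtain ⟨m1, hm1⟩ := (hGBD Γ ℝ _ hΓ hΨ.i1).1
  obtain ⟨m2, hm2⟩ := (hGBD Γ ℝ _ hΓ hΨ.il).1
  set c : ℝ := (1 + |m0|)⁻¹ with hc
  have hc0 : 0 < c := by positivity
  have hc1 : c ≤ 1 := by
    rw [hc]
    exact inv_le_one_of_one_le₀ (by linarith [abs_nonneg m0])
  obtain ⟨R0, hR0, hR⟩ := APL_sta hINW Γ F β α hΓ hF hβ hα (|m1| + |m2|) (c * η) (by positivity) (by positivity)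
  refine ⟨R0, hR0, fun r φ hr hφ hnn t t' h1 h2 h3 h4 => ?_⟩
  have h5 := hR r φ hr hφ hnn _ _ _ _ (LBL_sfc hΨ c) (fun g => by
      rw [abs_mul, abs_of_pos hc0, hc, inv_mul_le_one₀ (by positivity)]
      have := hm0 g
      rw [Real.norm_eq_abs] at this
      linarith [le_abs_self m0]) (fun g => by
      rw [abs_mul, abs_of_pos hc0]
      have := hm1 g
      rw [Real.norm_eq_abs] at this
      nlinarith [le_abs_self m1, abs_nonneg m2, abs_nonneg (Ψn g)]) (fun g => by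
      rw [abs_mul, abs_of_pos hc0]
      have := hm2 g
      rw [Real.norm_eq_abs] at this
      nlinarith [le_abs_self m2, abs_nonneg m1, abs_nonneg (Ψl g)]) t t' h1 h2 h3 h4
  have h6 : ∀ s : ℝ, EX F β α r φ (fun g => c * Ψ (g * aM s)) = c * EX F β α r φ (fun g => Ψ (g * aM s)) := by
    intro s
    unfold EX iR
    have : (fun g : SL(2, ℝ) => c * Ψ (g * aM s) * ‖pf β α r φ g‖ ^ 2) = fun g => c * (Ψ (g * aM s) * ‖pf β α r φ g‖ ^ 2) := by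
      funext g
      ring
    rw [this, integral_const_mul]
    ring
  rw [h6, h6, ← mul_sub, abs_mul, abs_of_pos hc0] at h5
  exact le_of_mul_le_mul_left h5 hc0

lemma LBL_Bd (κ : SL(2, ℝ) → ℝ) (N0 y0 : ℕ) (hκ : ∀ g, Continuous fun u => κ (g * aM u)) (h2 : 0 < Real.log N0) (g : SL(2, ℝ)) :
    Bd κ N0 y0 g = ∑ i ∈ Finset.range (y0 + 1), qq (κ g) (κ (g * aM ((i : ℕ) * Real.log N0))) + qq (κ g) (TP.av κ (Real.log N0) g) := by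
  unfold Bd
  congr 1
  · refine Finset.sum_congr rfl fun i _ => ?_
    unfold bad qq
    ring
  · have h1 : (fun u => bad κ u g) = fun u => qq (κ g) (κ (g * aM u)) := by
      funext u
      unfold bad qq
      ring
    rw [h1, APL_qint (fun u => κ (g * aM u)) (hκ g) (κ g) _ h2]
    unfold TP.av
    field_simp

theorem LBL_BdSF (hPSF : TP.PSF_stmt) (hPAV : TP.PAV_stmt) (hGBD : RS.GBD_stmt) {Γ : Subgroup SL(2, ℝ)} (hΓ : QU.SurfaceGroup Γ) {κ : SL(2, ℝ) → ℝ} (h : SFx Γ κ) (h01 : ∀ g, 0 ≤ κ g ∧ κ g ≤ 1)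
    (hκ : ∀ g, Continuous fun u => κ (g * aM u)) (N0 y0 : ℕ) (h2 : 0 < Real.log N0) : SFx Γ (Bd κ N0 y0) := by
  have h1 : Bd κ N0 y0 = fun g => ∑ i ∈ Finset.range (y0 + 1), qq (κ g) (κ (g * aM ((i : ℕ) * Real.log N0))) + qq (κ g) (TP.av κ (Real.log N0) g) := by
    funext g
    exact LBL_Bd κ N0 y0 hκ h2 g
  rw [h1]
  exact SFx_add (SFx_sum _ _ fun i _ => SFx_qq hPSF h (SFx_tr hPSF h _)) (SFx_qq hPSF h (SFx_av hPAV hGBD hΓ h h01 _ h2).1)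

end

end Pool.Agent.T1
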