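import Pool.Agent.helper94.T1.AP2

/-!
# T1, application of the row LTR: the hypotheses (H1), (H2)
-/

set_option autoImplicit false

open scoped MatrixGroups ContDiff Topology UpperHalfPlane ComplexConjugate
open UpperHalfPlane MeasureTheory Filter Set

namespace Pool.Agent.T1

open Pool.Agent.RS Pool.Agent.MS Pool.Agent.HV

noncomputable section

lemma LBL_am (g : SL(2, ℝ)) (s t : ℝ) : g * aM s * aM t = g * aM (s + t) := by
  rw [mul_assoc]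
  congr 1
  apply Subtype.ext
  rw [Matrix.SpecialLinearGroup.coe_mul]
  have h1 : Real.exp (s / 2) * Real.exp (t / 2) = Real.exp ((s + t) / 2) := by
    rw [← Real.exp_add]
    congr 1
    ring
  have h2 : Real.exp (-(s / 2)) * Real.exp (-(t / 2)) = Real.exp (-((s + t) / 2)) := by
    rw [← Real.exp_add]
    congr 1
    ring
  ext i j
  fin_cases i <;> fin_cases j <;> simp [aM, Matrix.mul_apply, Fin.sum_univ_two, h1, h2]

lemma LBL_am0 (g : SL(2, ℝ)) : g * aM 0 = g := by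
  have h : aM 0 = 1 := by
    apply Subtype.ext
    ext i j
    fin_cases i <;> fin_cases j <;> simp [aM]
  rw [h, mul_one]

lemma LBL_Bd0 (hPAV : ∀ (κ : SL(2, ℝ) → ℝ) (W : ℝ), 0 < W → (∀ g, 0 ≤ κ g ∧ κ g ≤ 1) → (∀ g, Continuous fun u => κ (g * aM u)) → ∀ g, 0 ≤ TP.av κ W g ∧ TP.av κ W g ≤ 1)
    (κ : SL(2, ℝ) → ℝ) (h01 : ∀ g, 0 ≤ κ g ∧ κ g ≤ 1) (hκ : ∀ g, Continuous fun u => κ (g * aM u)) (N0 y0 : ℕ) (h2 : 0 < Real.log N0) (g : SL(2, ℝ)) :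
    (∀ i ≤ y0, qq (κ g) (κ (g * aM ((i : ℕ) * Real.log N0))) ≤ Bd κ N0 y0 g) ∧ qq (κ g) (TP.av κ (Real.log N0) g) ≤ Bd κ N0 y0 g ∧ κ g * (1 - κ g) ≤ Bd κ N0 y0 g ∧ 0 ≤ Bd κ N0 y0 g := by
  have hA := hPAV κ _ h2 h01 hκ g
  have q1 : 0 ≤ qq (κ g) (TP.av κ (Real.log N0) g) := (APL_qq01 (h01 g) hA).1
  have q2 : ∀ i ∈ Finset.range (y0 + 1), 0 ≤ qq (κ g) (κ (g * aM ((i : ℕ) * Real.log N0))) := fun i _ => (APL_qq01 (h01 g) (h01 _)).1
  have q3 : 0 ≤ ∑ i ∈ Finset.range (y0 + 1), qq (κ g) (κ (g * aM ((i : ℕ) * Real.log N0))) := Finset.sum_nonneg q2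
  have q4 : ∀ i ≤ y0, qq (κ g) (κ (g * aM ((i : ℕ) * Real.log N0))) ≤ ∑ i ∈ Finset.range (y0 + 1), qq (κ g) (κ (g * aM ((i : ℕ) * Real.log N0))) := fun i hi =>
    Finset.single_le_sum q2 (Finset.mem_range.2 (by omega))
  rw [LBL_Bd κ N0 y0 hκ h2 g]
  refine ⟨fun i hi => by linarith [q4 i hi], by linarith, ?_, by linarith⟩
  have q5 := q4 0 (Nat.zero_le _)
  have q6 : κ g * (1 - κ g) ≤ qq (κ g) (κ (g * aM (((0 : ℕ) : ℝ) * Real.log N0))) := by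
    rw [Nat.cast_zero, zero_mul, LBL_am0]
    exact APL_var_le (h01 g) (h01 g)
  linarith

lemma LBL_avb (κ : SL(2, ℝ) → ℝ) (W : ℝ) (hW : 0 < W) (h01 : ∀ g, 0 ≤ κ g ∧ κ g ≤ 1) (hκ : ∀ g, Continuous fun u => κ (g * aM u)) (g : SL(2, ℝ)) :
    0 ≤ TP.av κ W g ∧ TP.av κ W g ≤ 1 := by
  unfold TP.av
  have h1 : 0 ≤ ∫ s in (0 : ℝ)..W, κ (g * aM s) := intervalIntegral.integral_nonneg hW.le fun s _ => (h01 _).1
  have h2 : ∫ s in (0 : ℝ)..W, κ (g * aM s) ≤ ∫ s in (0 : ℝ)..W, (1 : ℝ) :=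
    intervalIntegral.integral_mono_on hW.le ((hκ g).intervalIntegrable _ _) (by simp) fun s _ => (h01 _).2
  rw [intervalIntegral.integral_const, smul_eq_mul, mul_one, sub_zero] at h2
  exact ⟨div_nonneg h1 hW.le, (div_le_one hW).2 h2⟩

/-- the pointwise inequality for short distances -/
lemma LBL_p1 (κ : SL(2, ℝ) → ℝ) (h01 : ∀ g, 0 ≤ κ g ∧ κ g ≤ 1) (hκ : ∀ g, Continuous fun u => κ (g * aM u)) (N0 y0 : ℕ) (h2 : 0 < Real.log N0) (g : SL(2, ℝ)) (u : ℝ) (hu : 0 ≤ u) (hu2 : 2 * u ≤ Real.log N0) :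
    (κ g - κ (g * aM u)) ^ 2 ≤ 4 * (Bd κ N0 y0 g + Bd κ N0 y0 (g * aM u)) := by
  have h := APL_q (fun v => κ (g * aM v)) (hκ g) (fun v => h01 _) (Real.log N0) u h2 hu hu2
  have e1 : (fun v => κ (g * aM (u + v))) = fun v => κ (g * aM u * aM v) := by
    funext v
    rw [LBL_am]
  simp only [LBL_am0] at h
  rw [show (∫ v in (0 : ℝ)..Real.log N0, κ (g * aM (u + v))) = ∫ v in (0 : ℝ)..Real.log N0, κ (g * aM u * aM v) by rw [e1]] at h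
  have b1 := (LBL_Bd0 (fun κ W hW a b g => LBL_avb κ W hW a b g) κ h01 hκ N0 y0 h2 g).2.1
  have b2 := (LBL_Bd0 (fun κ W hW a b g => LBL_avb κ W hW a b g) κ h01 hκ N0 y0 h2 (g * aM u)).2.1
  unfold TP.av at b1 b2
  linarith

/-- the pointwise inequality -/
lemma LBL_p2 (κ : SL(2, ℝ) → ℝ) (h01 : ∀ g, 0 ≤ κ g ∧ κ g ≤ 1) (hκ : ∀ g, Continuous fun u => κ (g * aM u)) (N0 y0 : ℕ) (h2 : 0 < Real.log N0) (g : SL(2, ℝ)) (i : ℕ) (hi : i ≤ y0) (θ : ℝ) (hθ : 0 ≤ θ) (hθ2 : θ ≤ Real.log N0) :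
    (κ g - κ (g * aM (i * Real.log N0 + θ))) ^ 2 ≤ 2 * Bd κ N0 y0 g + 16 * (Bd κ N0 y0 (g * aM (i * Real.log N0)) + 2 * Bd κ N0 y0 (g * aM (i * Real.log N0 + θ / 2)) + Bd κ N0 y0 (g * aM (i * Real.log N0 + θ))) := by
  have b1 := (LBL_Bd0 (fun κ W hW a b g => LBL_avb κ W hW a b g) κ h01 hκ N0 y0 h2 g).1 i hi
  have b2 := APL_sq_le (h01 g) (h01 (g * aM (i * Real.log N0)))
  have b3 := LBL_p1 κ h01 hκ N0 y0 h2 (g * aM (i * Real.log N0)) (θ / 2) (by linarith) (by linarith)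
  have b4 := LBL_p1 κ h01 hκ N0 y0 h2 (g * aM (i * Real.log N0 + θ / 2)) (θ / 2) (by linarith) (by linarith)
  rw [LBL_am] at b3 b4
  have e : (i : ℝ) * Real.log N0 + θ / 2 + θ / 2 = i * Real.log N0 + θ := by ring
  rw [e] at b4
  generalize κ g = x0 at *
  generalize κ (g * aM (i * Real.log N0)) = x1 at *
  generalize κ (g * aM (i * Real.log N0 + θ / 2)) = x2 at *
  generalize κ (g * aM (i * Real.log N0 + θ)) = x3 at *
  nlinarith [sq_nonneg ((x0 - x1) - (x1 - x3)), sq_nonneg ((x1 - x2) - (x2 - x3))]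

/-- (H1), (H2) -/
theorem LBL_H12 (hPSF : TP.PSF_stmt) (hPAV : TP.PAV_stmt) (hINW : MS.INW_stmt) (hGFD : RS.GFD_stmt) (hGBD : RS.GBD_stmt) (hFL0 : RS.FL0_stmt) (hCV1 : RS.CV1_stmt) (hGLC : RS.GLC_stmt)
    (Γ : Subgroup SL(2, ℝ)) (F : Set ℍ) (β α : ℝ → ℝ) (hΓ : QU.SurfaceGroup Γ) (hF : QU.NiceDom Γ F) (hβ : BB (1 / 4) β) (hα : BA (1 / 4) α) (N0 y0 : ℕ) (h2 : 0 < Real.log N0)
    (κ : SL(2, ℝ) → ℝ) (hκ : SFx Γ κ) (h01 : ∀ g, 0 ≤ κ g ∧ κ g ≤ 1) (δ : ℝ) (hδ : 0 < δ) : ∃ R0 : ℝ, 1 ≤ R0 ∧ ∀ (r t1 : ℝ) (φ : ℍ → ℂ), R0 ≤ r → EigL Γ (1 / 4 + r ^ 2) φ → nn F φ = 1 →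
      Real.sqrt (Real.log r) ≤ t1 → t1 ≤ Real.log r - Real.sqrt (Real.log r) → EX F β α r φ (fun g => Bd κ N0 y0 (g * aM t1)) ≤ δ / 200 →
        ∀ τ τ' : ℝ, Real.sqrt (Real.log r) ≤ τ → τ ≤ Real.log r - Real.sqrt (Real.log r) → Real.sqrt (Real.log r) ≤ τ' → τ' ≤ Real.log r - Real.sqrt (Real.log r) → |τ - τ'| ≤ y0 * Real.log N0 →
          ∫ g, (κ (g * aM τ) - κ (g * aM τ')) ^ 2 ∂(PM F β α r φ) ≤ δ ∧ ∫ g, κ (g * aM τ) * (1 - κ (g * aM τ)) ∂(PM F β α r φ) ≤ δ := by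
  obtain ⟨hlc, hsc, -, haM, -⟩ := hGLC
  have hκc : Continuous κ := by
    obtain ⟨_, _, _, h⟩ := hκ
    exact h.i0.1
  have hκu : ∀ g, Continuous fun u => κ (g * aM u) := fun g => hκc.comp (continuous_const.mul haM)
  have hB := LBL_BdSF hPSF hPAV hGBD hΓ hκ h01 hκu N0 y0 h2
  have hBc : Continuous (Bd κ N0 y0) := by
    obtain ⟨_, _, _, h⟩ := hB
    exact h.i0.1
  obtain ⟨mB, hmB⟩ : ∃ m : ℝ, ∀ g, |Bd κ N0 y0 g| ≤ m := by
    obtain ⟨_, _, _, h⟩ := hB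
    obtain ⟨m, hm⟩ := (hGBD Γ ℝ _ hΓ h.i0).1
    exact ⟨m, fun g => by simpa using hm g⟩
  obtain ⟨R0, hR0, hR⟩ := SFx_sta hINW hGBD Γ F β α hΓ hF hβ hα _ hB (δ / 200) (by positivity)
  refine ⟨R0, hR0, ?_⟩
  intro r t1 φ hr hφ hnn h3 h4 h5
  have hr0 : 0 ≤ r := by linarith
  obtain ⟨hpc, hpb⟩ := APL_pfm (r := r) hFL0 hCV1 hGBD hΓ hβ hα hφ
  have hfin : IsFiniteMeasure (PM F β α r φ) := PM_fin hGFD hΓ hF hr0 hpc hpb
  have : SecondCountableTopology SL(2, ℝ) := hsc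
  set P := PM F β α r φ with hP
  have hcm : ∀ s : ℝ, Continuous fun g : SL(2, ℝ) => g * aM s := fun s => continuous_mul_const _
  have hBi : ∀ s : ℝ, Integrable (fun g => Bd κ N0 y0 (g * aM s)) P := fun s => APL_ii P (hBc.comp (hcm s)) fun g => hmB _
  have hBs : ∀ s : ℝ, Real.sqrt (Real.log r) ≤ s → s ≤ Real.log r - Real.sqrt (Real.log r) → ∫ g, Bd κ N0 y0 (g * aM s) ∂P ≤ δ / 100 := by
    intro s hs1 hs2
    rw [hP, PM_int F β α r φ hr0 hpc]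
    have := hR r φ hr hφ hnn s t1 hs1 hs2 h3 h4
    rw [abs_le] at this
    linarith [this.2]
  have hB0 := fun g => LBL_Bd0 (fun κ W hW a b g => LBL_avb κ W hW a b g) κ h01 hκu N0 y0 h2 g
  have main : ∀ τ τ' : ℝ, Real.sqrt (Real.log r) ≤ τ → τ' ≤ Real.log r - Real.sqrt (Real.log r) → τ ≤ τ' → τ' - τ ≤ y0 * Real.log N0 →
      ∫ g, (κ (g * aM τ) - κ (g * aM τ')) ^ 2 ∂P ≤ δ := by
    intro τ τ' h6 h7 h8 h9
    set n := Real.log N0 with hn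
    set i := ⌊(τ' - τ) / n⌋₊ with hi
    have h10 : (0 : ℝ) ≤ (τ' - τ) / n := div_nonneg (by linarith) h2.le
    have h11 : (i : ℝ) ≤ (τ' - τ) / n := Nat.floor_le h10
    have h12 : (τ' - τ) / n < i + 1 := Nat.lt_floor_add_one _
    rw [le_div_iff₀ h2] at h11
    rw [div_lt_iff₀ h2] at h12
    have hiy : i ≤ y0 := by
      have h13 : (i : ℝ) * n ≤ y0 * n := by linarith
      exact_mod_cast le_of_mul_le_mul_right h13 h2
    set θ := τ' - τ - i * n with hθ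
    have hθ0 : 0 ≤ θ := by rw [hθ]; linarith
    have hθn : θ ≤ n := by rw [hθ]; nlinarith
    have hin : 0 ≤ (i : ℝ) * n := by positivity
    have e0 : τ' = τ + (i * n + θ) := by rw [hθ]; ring
    have hpt : ∀ g : SL(2, ℝ), (κ (g * aM τ) - κ (g * aM τ')) ^ 2 ≤ 2 * Bd κ N0 y0 (g * aM τ) + 16 * (Bd κ N0 y0 (g * aM (τ + i * n)) + 2 * Bd κ N0 y0 (g * aM (τ + (i * n + θ / 2))) + Bd κ N0 y0 (g * aM (τ + (i * n + θ)))) := by
      intro g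
      have h := LBL_p2 κ h01 hκu N0 y0 h2 (g * aM τ) i hiy θ hθ0 hθn
      rw [LBL_am, LBL_am, LBL_am] at h
      rw [e0]
      exact h
    have hi1 : Integrable (fun g => (κ (g * aM τ) - κ (g * aM τ')) ^ 2) P := by
      refine APL_ii P (((hκc.comp (hcm τ)).sub (hκc.comp (hcm τ'))).pow 2) (B := 1) fun g => ?_
      rw [abs_of_nonneg (sq_nonneg _)]
      nlinarith [(h01 (g * aM τ)).1, (h01 (g * aM τ)).2, (h01 (g * aM τ')).1, (h01 (g * aM τ')).2]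
    have e1 := integral_mono hi1 (((hBi τ).const_mul 2).add ((((hBi (τ + i * n)).add ((hBi (τ + (i * n + θ / 2))).const_mul 2)).add (hBi (τ + (i * n + θ)))).const_mul 16)) hpt
    refine e1.trans ?_
    have e2 : ∫ g, (2 * Bd κ N0 y0 (g * aM τ) + 16 * (Bd κ N0 y0 (g * aM (τ + i * n)) + 2 * Bd κ N0 y0 (g * aM (τ + (i * n + θ / 2))) + Bd κ N0 y0 (g * aM (τ + (i * n + θ))))) ∂P =
        2 * ∫ g, Bd κ N0 y0 (g * aM τ) ∂P + 16 * (∫ g, Bd κ N0 y0 (g * aM (τ + i * n)) ∂P + 2 * ∫ g, Bd κ N0 y0 (g * aM (τ + (i * n + θ / 2))) ∂P + ∫ g, Bd κ N0 y0 (g * aM (τ + (i * n + θ))) ∂P) := by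
      have f1 : Integrable (fun g => 2 * Bd κ N0 y0 (g * aM τ)) P := (hBi τ).const_mul 2
      have f2 : Integrable (fun g => 2 * Bd κ N0 y0 (g * aM (τ + (i * n + θ / 2)))) P := (hBi _).const_mul 2
      have f3 : Integrable (fun g => Bd κ N0 y0 (g * aM (τ + i * n)) + 2 * Bd κ N0 y0 (g * aM (τ + (i * n + θ / 2)))) P := (hBi _).add f2
      have f4 : Integrable (fun g => Bd κ N0 y0 (g * aM (τ + i * n)) + 2 * Bd κ N0 y0 (g * aM (τ + (i * n + θ / 2))) + Bd κ N0 y0 (g * aM (τ + (i * n + θ)))) P := f3.add (hBi _)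
      rw [integral_add f1 (f4.const_mul 16), integral_const_mul, integral_const_mul, integral_add f3 (hBi _), integral_add (hBi _) f2, integral_const_mul]
    have e3 : ∫ g, (2 * Bd κ N0 y0 (g * aM τ) + 16 * (Bd κ N0 y0 (g * aM (τ + i * n)) + 2 * Bd κ N0 y0 (g * aM (τ + (i * n + θ / 2))) + Bd κ N0 y0 (g * aM (τ + (i * n + θ))))) ∂P ≤ δ := by
      rw [e2]
      have q1 := hBs τ h6 (by linarith)
      have q2 := hBs (τ + i * n) (by linarith) (by linarith)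
      have q3 := hBs (τ + (i * n + θ / 2)) (by linarith) (by linarith)
      have q4 := hBs (τ + (i * n + θ)) (by linarith) (by linarith)
      linarith
    exact e3
  intro τ τ' h6 h7 h8 h9 h10
  refine ⟨?_, ?_⟩
  · rcases le_total τ τ' with h | h
    · refine main τ τ' h6 h9 h ?_
      rw [abs_sub_comm, abs_of_nonneg (by linarith)] at h10
      exact h10
    · have e : (fun g : SL(2, ℝ) => (κ (g * aM τ) - κ (g * aM τ')) ^ 2) = fun g => (κ (g * aM τ') - κ (g * aM τ)) ^ 2 := by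
        funext g
        ring
      rw [e]
      refine main τ' τ h8 h7 h ?_
      rw [abs_of_nonneg (by linarith)] at h10
      exact h10
  · have hi1 : Integrable (fun g => κ (g * aM τ) * (1 - κ (g * aM τ))) P := by
      refine APL_ii P ((hκc.comp (hcm τ)).mul (continuous_const.sub (hκc.comp (hcm τ)))) (B := 1) fun g => ?_
      have q := h01 (g * aM τ)
      rw [abs_of_nonneg (mul_nonneg q.1 (by linarith [q.2]))]
      nlinarith [q.1, q.2]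
    refine (integral_mono hi1 (hBi τ) fun g => (hB0 (g * aM τ)).2.2.1).trans ?_
    have := hBs τ h6 h7
    linarith

end

end Pool.Agent.T1
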